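import Pool.Agent.Lib.MP_3d11e1_an.Final
import Pool.Agent.Lib.MP_3d11e1_an.Closed

/-!
# No smooth Besicovitch cylindrical transformations over minimal rotations of tori

For every dimension `d` there is a finite `k` such that no cylindrical transformation over a
minimal rotation of `𝕋^d` with a cocycle of class `C^k` is Besicovitch. In particular there is
none with a `C^∞` or a real-analytic cocycle, in any dimension.
-/

namespace Pool.Agent.Results.MP_3d11e1_an.NoBesicovitch

open Pool.Agent.Lib.MP_3d11e1_an

theorem result : ∀ d : ℕ, ∃ k : ℕ, ∀ (α : Fin d → ℝ) (φ : UnitAddTorus (Fin d) → ℝ),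
    MinimalRotation α → IsCk k φ → ¬ Besicovitch α φ :=
  no_besicovitch

end Pool.Agent.Results.MP_3d11e1_an.NoBesicovitch
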